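import Pool.Agent.Q5.AltChar.Defs

set_option autoImplicit false

/-!
# Basic facts on the power operation and products near one
-/

namespace Q5.AltChar

section zp

variable {S : Type*} [CommRing S]

theorem zp_unit (v : Sˣ) (c : ℤ) : zp (v : S) c = ((v ^ c : Sˣ) : S) := by
  unfold zp
  rw [Ring.inverse_unit]
  obtain ⟨n, rfl | rfl⟩ := c.eq_nat_or_neg
  · simp
  · simp

theorem zp_add {u : S} (hu : IsUnit u) (c c' : ℤ) : zp u (c + c') = zp u c * zp u c' := by
  obtain ⟨v, rfl⟩ := hu
  rw [zp_unit, zp_unit, zp_unit, zpow_add, Units.val_mul]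

theorem zp_zero (u : S) : zp u 0 = 1 := by
  simp [zp]

theorem zp_nat (u : S) (n : ℕ) : zp u n = u ^ n := by
  simp [zp]

theorem zp_sum {u : S} (hu : IsUnit u) {ι : Type*} (s : Finset ι) (c : ι → ℤ) :
    zp u (∑ i ∈ s, c i) = ∏ i ∈ s, zp u (c i) := by
  classical
  induction s using Finset.induction_on with
  | empty => simp [zp_zero]
  | insert i s hi ih => rw [Finset.sum_insert hi, Finset.prod_insert hi, zp_add hu, ih]

theorem map_zp {R : Type*} [CommRing R] (f : S →+* R) {u : S} (hu : IsUnit u) (c : ℤ) :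
    f (zp u c) = zp (f u) c := by
  obtain ⟨v, rfl⟩ := hu
  rw [zp_unit]
  have h : f (v : S) = ((Units.map (f : S →* R) v : Rˣ) : R) := rfl
  rw [h, zp_unit, ← map_zpow]
  rfl

end zp

section near

variable {S : Type*} [CommRing S]

/-- `u` is `1 + δ` up to an element of `K`, and `δ` is in `J`. -/
structure Near (J K : Ideal S) (u δ : S) : Prop where
  mem : u - 1 - δ ∈ K
  mem' : δ ∈ J

variable {J K : Ideal S}

theorem Near.sub_mem (hKJ : K ≤ J) {u δ : S} (h : Near J K u δ) : u - 1 ∈ J := by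
  have := J.add_mem (hKJ h.mem) h.mem'
  simpa using this

theorem Near.one : Near J K (1 : S) 0 := ⟨by simp, by simp⟩

theorem Near.mul (hKJ : K ≤ J) (hJ : J * J ≤ K) {u v δ ε : S} (h : Near J K u δ)
    (h' : Near J K v ε) : Near J K (u * v) (δ + ε) := by
  refine ⟨?_, J.add_mem h.mem' h'.mem'⟩
  have h1 : (u - 1) * (v - 1) ∈ K := hJ (Ideal.mul_mem_mul (h.sub_mem hKJ) (h'.sub_mem hKJ))
  have h2 : u * v - 1 - (δ + ε) = (u - 1) * (v - 1) + (u - 1 - δ) + (v - 1 - ε) := by ring
  rw [h2]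
  exact K.add_mem (K.add_mem h1 h.mem) h'.mem

theorem Near.pow (hKJ : K ≤ J) (hJ : J * J ≤ K) {u δ : S} (h : Near J K u δ) (n : ℕ) :
    Near J K (u ^ n) (n * δ) := by
  induction n with
  | zero => simpa using (Near.one : Near J K (1 : S) 0)
  | succ n ih =>
    have := ih.mul hKJ hJ h
    rw [pow_succ]
    convert this using 1
    push_cast
    ring

theorem Near.inv (hKJ : K ≤ J) (hJ : J * J ≤ K) {u δ : S} (hu : IsUnit u) (h : Near J K u δ) :
    Near J K (Ring.inverse u) (-δ) := by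
  obtain ⟨v, rfl⟩ := hu
  rw [Ring.inverse_unit]
  refine ⟨?_, J.neg_mem h.mem'⟩
  have h0 := h.sub_mem hKJ
  have h1 : ((v⁻¹ : Sˣ) : S) - 1 = -(((v⁻¹ : Sˣ) : S) * ((v : S) - 1)) := by
    rw [mul_sub, Units.inv_mul]
    ring
  have h2 : ((v⁻¹ : Sˣ) : S) - 1 ∈ J := by
    rw [h1]
    exact J.neg_mem (J.mul_mem_left _ h0)
  have h3 : ((v⁻¹ : Sˣ) : S) - 1 - -δ = -((v : S) - 1 - δ) -
      (((v⁻¹ : Sˣ) : S) - 1) * ((v : S) - 1) := by
    have : (((v⁻¹ : Sˣ) : S) - 1) * ((v : S) - 1) = 1 - ((v⁻¹ : Sˣ) : S) - (v : S) + 1 := by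
      ring_nf
      rw [Units.inv_mul]
      ring
    rw [this]
    ring
  rw [h3]
  exact K.sub_mem (K.neg_mem h.mem) (hJ (Ideal.mul_mem_mul h2 h0))

theorem Near.zp (hKJ : K ≤ J) (hJ : J * J ≤ K) {u δ : S} (hu : IsUnit u) (h : Near J K u δ)
    (c : ℤ) : Near J K (zp u c) (c * δ) := by
  have h1 := (h.pow hKJ hJ c.toNat).mul hKJ hJ ((h.inv hKJ hJ hu).pow hKJ hJ (-c).toNat)
  unfold AltChar.zp
  convert h1 using 1
  have h2 : ((c.toNat : ℤ) : S) - (((-c).toNat : ℤ) : S) = (c : S) := by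
    rw [← Int.cast_sub]
    congr 1
    omega
  rw [← h2]
  push_cast
  ring

theorem Near.prod (hKJ : K ≤ J) (hJ : J * J ≤ K) {ι : Type*} (s : Finset ι) (u δ : ι → S)
    (h : ∀ i ∈ s, Near J K (u i) (δ i)) : Near J K (∏ i ∈ s, u i) (∑ i ∈ s, δ i) := by
  classical
  induction s using Finset.induction_on with
  | empty => simpa using (Near.one : Near J K (1 : S) 0)
  | insert i s hi ih =>
    rw [Finset.sum_insert hi, Finset.prod_insert hi]
    exact (h i (Finset.mem_insert_self i s)).mul hKJ hJ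
      (ih (fun j hj => h j (Finset.mem_insert_of_mem hj)))

theorem Near.list_prod (hKJ : K ≤ J) (hJ : J * J ≤ K) {ι : Type*} (l : List ι) (u δ : ι → S)
    (h : ∀ i ∈ l, Near J K (u i) (δ i)) : Near J K (l.map u).prod (l.map δ).sum := by
  induction l with
  | nil => simpa using (Near.one : Near J K (1 : S) 0)
  | cons i l ih =>
    rw [List.map_cons, List.map_cons, List.prod_cons, List.sum_cons]
    exact (h i (List.mem_cons_self)).mul hKJ hJ (ih (fun j hj => h j (List.mem_cons_of_mem _ hj)))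

/-- The product of the powers of the `1 - x μ`, where `μ` runs over the weights of the adjoint
module, and of a power of `1 - x 0`. -/
noncomputable def fac (x : ℤ × ℤ → S) (a b : ℤ) : S :=
  (adjWeights.map (fun μ => AltChar.zp (1 - x μ) a)).prod * AltChar.zp (1 - x 0) b

theorem fac_near (hKJ : K ≤ J) (hJ : J * J ≤ K) {x : ℤ × ℤ → S} (hx : ∀ μ, x μ ∈ J)
    (hu : ∀ μ, IsUnit (1 - x μ)) (a b : ℤ) :
    Near J K (fac x a b) (-((a : S) * (adjWeights.map x).sum + (b : S) * x 0)) := by
  have key : ∀ (μ : ℤ × ℤ) (c : ℤ), Near J K (AltChar.zp (1 - x μ) c) (c * (-x μ)) := fun μ c =>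
    Near.zp hKJ hJ (hu μ) ⟨by simp, J.neg_mem (hx μ)⟩ c
  have h1 := (Near.list_prod hKJ hJ adjWeights (fun μ => AltChar.zp (1 - x μ) a)
    (fun μ => (a : S) * (-x μ)) (fun μ _ => key μ a)).mul hKJ hJ (key 0 b)
  have h2 : ∀ l : List (ℤ × ℤ), (l.map (fun μ => (a : S) * (-x μ))).sum =
      -((a : S) * (l.map x).sum) := by
    intro l
    induction l with
    | nil => simp
    | cons y l ih =>
      rw [List.map_cons, List.map_cons, List.sum_cons, List.sum_cons, ih]
      ring
  rw [h2] at h1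
  have h3 : -((a : S) * (adjWeights.map x).sum + (b : S) * x 0) =
      -((a : S) * (adjWeights.map x).sum) + b * -x 0 := by ring
  rw [h3]
  exact h1

theorem map_fac {R : Type*} [CommRing R] (f : S →+* R) {x : ℤ × ℤ → S}
    (hu : ∀ μ, IsUnit (1 - x μ)) (a b : ℤ) : f (fac x a b) = fac (fun μ => f (x μ)) a b := by
  unfold fac
  rw [map_mul, map_list_prod, List.map_map, map_zp f (hu 0), map_sub, map_one]
  congr 2
  apply List.map_congr_left
  intro μ _
  simp only [Function.comp_apply]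
  rw [map_zp f (hu μ), map_sub, map_one]

theorem fac_sum {x : ℤ × ℤ → S} (hu : ∀ μ, IsUnit (1 - x μ)) {ι : Type*} (s : Finset ι)
    (a b : ι → ℤ) : ∏ i ∈ s, fac x (a i) (b i) = fac x (∑ i ∈ s, a i) (∑ i ∈ s, b i) := by
  classical
  induction s using Finset.induction_on with
  | empty => simp [fac, zp_zero, adjWeights]
  | insert i s hi ih =>
    rw [Finset.prod_insert hi, ih, Finset.sum_insert hi, Finset.sum_insert hi]
    unfold fac
    rw [zp_add (hu 0)]
    have : ∀ l : List (ℤ × ℤ), (l.map (fun μ => AltChar.zp (1 - x μ) (a i + ∑ j ∈ s, a j))).prod =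
        (l.map (fun μ => AltChar.zp (1 - x μ) (a i))).prod *
        (l.map (fun μ => AltChar.zp (1 - x μ) (∑ j ∈ s, a j))).prod := by
      intro l
      induction l with
      | nil => simp
      | cons y l ih =>
        rw [List.map_cons, List.map_cons, List.map_cons, List.prod_cons, List.prod_cons,
          List.prod_cons, ih, zp_add (hu y)]
        ring
    rw [this]
    ring

end near

section mult

theorem mult_add (lam : ℤ × ℤ) (f g : Tor) : mult lam (f + g) = mult lam f + mult lam g := by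
  simp only [mult, AddMonoidAlgebra.coeff_add, Finsupp.add_apply]
  ring

/-- `mult` as an additive map. -/
def multHom (lam : ℤ × ℤ) : Tor →+ ℤ where
  toFun := mult lam
  map_zero' := by simp [mult]
  map_add' := mult_add lam

theorem mult_sum (lam : ℤ × ℤ) {ι : Type*} (s : Finset ι) (f : ι → Tor) :
    mult lam (∑ i ∈ s, f i) = ∑ i ∈ s, mult lam (f i) := map_sum (multHom lam) f s

theorem mult_sub (lam : ℤ × ℤ) (f g : Tor) : mult lam (f - g) = mult lam f - mult lam g :=
  map_sub (multHom lam) f g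

/-- The character of the adjoint module. -/
noncomputable def chi : Tor := (adjWeights.map (fun μ => AddMonoidAlgebra.single μ (1 : ℤ))).sum

theorem mult_lin (lam : ℤ × ℤ) (a b : ℤ) :
    mult lam ((a : Tor) * chi + (b : Tor)) = a * mult lam chi + b * mult lam 1 := by
  rw [mult_add]
  have h1 : (a : Tor) * chi = a • chi := by rw [zsmul_eq_mul]
  have h2 : (b : Tor) = b • (1 : Tor) := by rw [zsmul_eq_mul, mul_one]
  rw [h1, h2]
  have h3 := map_zsmul (multHom lam) a chi
  have h4 := map_zsmul (multHom lam) b (1 : Tor)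
  simp only [smul_eq_mul] at h3 h4
  exact congrArg₂ (· + ·) h3 h4

theorem mult_chi_zero : mult (0, 0) chi = 0 := by
  simp [mult, chi, adjWeights]

theorem mult_chi_one : mult (1, 1) chi = 1 := by
  simp [mult, chi, adjWeights]

theorem mult_one_zero : mult (0, 0) (1 : Tor) = 1 := by
  simp [mult, AddMonoidAlgebra.one_def, Finsupp.single_apply]
  rfl

theorem mult_one_one : mult (1, 1) (1 : Tor) = 0 := by
  simp [mult, AddMonoidAlgebra.one_def]

end mult

end Q5.AltChar
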