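import Pool.Agent.Q5.AltChar.Basic

set_option autoImplicit false

/-!
# Tables of coefficients
-/

namespace Q5.AltChar

/-- The Laurent polynomial in the first variable with a given list of coefficients. -/
noncomputable def val1 : List ℤ → Tor
  | [] => 0
  | c :: l => AddMonoidAlgebra.single 0 c + AddMonoidAlgebra.single (1, 0) 1 * val1 l

/-- The Laurent polynomial with a given table of coefficients. -/
noncomputable def val2 : List (List ℤ) → Tor
  | [] => 0
  | l :: L => val1 l + AddMonoidAlgebra.single (0, 1) 1 * val2 L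

/-- The sum of lists. -/
def addL : List ℤ → List ℤ → List ℤ
  | [], l => l
  | a :: l, [] => a :: l
  | a :: l, b :: l' => (a + b) :: addL l l'

/-- The sum of tables. -/
def add2 : List (List ℤ) → List (List ℤ) → List (List ℤ)
  | [], l => l
  | a :: l, [] => a :: l
  | a :: l, b :: l' => addL a b :: add2 l l'

/-- A multiple of a table. -/
def smul2 (c : ℤ) (L : List (List ℤ)) : List (List ℤ) := L.map (fun l => l.map (fun x => c * x))

/-- A shifted table. -/
def shift2 (a b : ℕ) (L : List (List ℤ)) : List (List ℤ) :=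
  List.replicate b [] ++ L.map (fun l => List.replicate a 0 ++ l)

/-- The signed binomial coefficient. -/
def coef (c k : ℕ) : ℤ :=
  (if k % 2 = 0 then 1 else -1) * ((c.descFactorial k / k.factorial : ℕ) : ℤ)

/-- Multiplication by `(1 - t ^ n e ^ μ) ^ c`. -/
def mulFac (n i j c : ℕ) (P : List (List (List ℤ))) : List (List (List ℤ)) :=
  (List.range 10).map (fun m => (List.range (m / n + 1)).foldr
    (fun k acc => add2 (smul2 (coef c k) (shift2 (i * k) (j * k) (P.getD (m - n * k) []))) acc) [])

theorem val1_addL (l l' : List ℤ) : val1 (addL l l') = val1 l + val1 l' := by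
  induction l generalizing l' with
  | nil => simp [addL, val1]
  | cons a l ih =>
    cases l' with
    | nil => simp [addL, val1]
    | cons b l' =>
      simp only [addL, val1, ih]
      rw [AddMonoidAlgebra.single_add]
      ring

theorem val2_add2 (l l' : List (List ℤ)) : val2 (add2 l l') = val2 l + val2 l' := by
  induction l generalizing l' with
  | nil => simp [add2, val2]
  | cons a l ih =>
    cases l' with
    | nil => simp [add2, val2]
    | cons b l' =>
      simp only [add2, val2, ih, val1_addL]
      ring

theorem val1_smul (c : ℤ) (l : List ℤ) : val1 (l.map (fun x => c * x)) = c • val1 l := by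
  induction l with
  | nil => simp [val1]
  | cons a l ih =>
    simp only [List.map_cons, val1, ih, smul_add]
    rw [AddMonoidAlgebra.smul_single, smul_eq_mul, mul_smul_comm]

theorem val2_smul2 (c : ℤ) (L : List (List ℤ)) : val2 (smul2 c L) = c • val2 L := by
  unfold smul2
  induction L with
  | nil => simp [val2]
  | cons a l ih =>
    simp only [List.map_cons, val2, ih, smul_add, val1_smul, mul_smul_comm]

theorem val1_shift (a : ℕ) (l : List ℤ) :
    val1 (List.replicate a 0 ++ l) = AddMonoidAlgebra.single ((a : ℤ), (0 : ℤ)) 1 * val1 l := by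
  induction a with
  | zero =>
    simp only [List.replicate_zero, List.nil_append, Nat.cast_zero]
    have : (AddMonoidAlgebra.single ((0 : ℤ), (0 : ℤ)) 1 : Tor) = 1 := rfl
    rw [this, one_mul]
  | succ a ih =>
    simp only [List.replicate_succ, List.cons_append, val1, ih]
    rw [← mul_assoc, AddMonoidAlgebra.single_mul_single]
    simp [add_comm]

theorem val2_shift2 (a b : ℕ) (L : List (List ℤ)) :
    val2 (shift2 a b L) = AddMonoidAlgebra.single ((a : ℤ), (b : ℤ)) 1 * val2 L := by
  unfold shift2
  induction b with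
  | zero =>
    simp only [List.replicate_zero, List.nil_append, Nat.cast_zero]
    induction L with
    | nil => simp [val2]
    | cons l L ih =>
      simp only [List.map_cons, val2, ih, val1_shift]
      ring
  | succ b ih =>
    simp only [List.replicate_succ, List.cons_append, val2, ih, val1]
    rw [← mul_assoc, AddMonoidAlgebra.single_mul_single]
    simp [add_comm]

theorem coeff_val1 (l : List ℤ) (x y : ℤ) :
    (val1 l).coeff (x, y) = if y = 0 ∧ 0 ≤ x then l.getD x.toNat 0 else 0 := by
  induction l generalizing x with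
  | nil => simp [val1]
  | cons a l ih =>
    simp only [val1, AddMonoidAlgebra.coeff_add, Finsupp.add_apply,
      AddMonoidAlgebra.coeff_single_mul_apply, one_mul]
    have h1 : (-((1 : ℤ), (0 : ℤ)) + (x, y)) = (x - 1, y) := by
      ext <;> simp <;> ring
    rw [h1, ih, AddMonoidAlgebra.coeff_single, Finsupp.single_apply]
    by_cases hy : y = 0
    · subst hy
      rcases lt_trichotomy x 0 with hx | hx | hx
      · rw [if_neg, if_neg, if_neg]
        · rfl
        · omega
        · omega
        · intro h
          have := congrArg Prod.fst h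
          simp at this
          omega
      · subst hx
        rw [if_pos (show (0 : ℤ × ℤ) = (0, 0) from rfl), if_neg (by omega), if_pos ⟨rfl, le_rfl⟩]
        simp
      · obtain ⟨n, rfl⟩ : ∃ n : ℕ, x = n + 1 := ⟨(x - 1).toNat, by omega⟩
        rw [if_neg, if_pos, if_pos]
        · have h2 : ((n : ℤ) + 1).toNat = n + 1 := by omega
          have h3 : ((n : ℤ) + 1 - 1).toNat = n := by omega
          rw [h2, h3]
          simp
        · exact ⟨rfl, by omega⟩
        · exact ⟨rfl, by omega⟩
        · intro h
          have := congrArg Prod.fst h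
          simp at this
          omega
    · rw [if_neg, if_neg, if_neg]
      · rfl
      · tauto
      · tauto
      · intro h
        exact hy (congrArg Prod.snd h).symm

theorem coeff_val2 (L : List (List ℤ)) (x y : ℤ) :
    (val2 L).coeff (x, y) = if 0 ≤ x ∧ 0 ≤ y then (L.getD y.toNat []).getD x.toNat 0 else 0 := by
  induction L generalizing y with
  | nil => simp [val2]
  | cons l L ih =>
    simp only [val2, AddMonoidAlgebra.coeff_add, Finsupp.add_apply,
      AddMonoidAlgebra.coeff_single_mul_apply, one_mul]
    have h1 : (-((0 : ℤ), (1 : ℤ)) + (x, y)) = (x, y - 1) := by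
      ext <;> simp <;> ring
    rw [h1, ih, coeff_val1]
    rcases lt_trichotomy y 0 with hy | hy | hy
    · rw [if_neg (by omega), if_neg (by omega), if_neg (by omega)]
      rfl
    · subst hy
      by_cases hx : 0 ≤ x
      · rw [if_pos ⟨rfl, hx⟩, if_neg (by omega), if_pos ⟨hx, le_rfl⟩]
        simp
      · rw [if_neg (by omega), if_neg (by omega), if_neg (by omega)]
        rfl
    · obtain ⟨n, rfl⟩ : ∃ n : ℕ, y = n + 1 := ⟨(y - 1).toNat, by omega⟩
      by_cases hx : 0 ≤ x
      · rw [if_neg (by omega), if_pos ⟨hx, by omega⟩, if_pos ⟨hx, by omega⟩]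
        have h2 : ((n : ℤ) + 1).toNat = n + 1 := by omega
        have h3 : ((n : ℤ) + 1 - 1).toNat = n := by omega
        rw [h2, h3]
        simp
      · rw [if_neg (by omega), if_neg (by omega), if_neg (by omega)]
        rfl

/-- The table `P` describes the power series `F` up to degree nine. -/
def Rep (P : List (List (List ℤ))) (F : PowerSeries Tor) : Prop :=
  ∀ m < 10, val2 (P.getD m []) =
    AddMonoidAlgebra.single ((m : ℤ), (m : ℤ)) 1 * PowerSeries.coeff m F

theorem coef_eq (c k : ℕ) : coef c k = (-1) ^ k * (c.choose k : ℤ) := by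
  unfold coef
  rw [← Nat.choose_eq_descFactorial_div_factorial]
  congr 1
  rcases Nat.even_or_odd k with h | h
  · rw [if_pos (Nat.even_iff.1 h), h.neg_one_pow]
  · rw [if_neg (by rw [Nat.odd_iff.1 h]; norm_num), h.neg_one_pow]

theorem coeff_mul_monomial (F : PowerSeries Tor) (m n : ℕ) (r : Tor) :
    PowerSeries.coeff m (F * PowerSeries.monomial n r) =
      if n ≤ m then PowerSeries.coeff (m - n) F * r else 0 := by
  have h1 : (PowerSeries.monomial n r : PowerSeries Tor) = PowerSeries.C r * PowerSeries.X ^ n := by
    rw [PowerSeries.monomial_eq_mk, PowerSeries.X_pow_eq]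
    ext k
    rw [PowerSeries.coeff_C_mul, PowerSeries.coeff_monomial, PowerSeries.coeff_mk]
    split_ifs <;> simp
  rw [h1, mul_comm (PowerSeries.C r), ← mul_assoc, mul_comm, PowerSeries.coeff_C_mul,
    PowerSeries.coeff_mul_X_pow']
  split_ifs
  · ring
  · ring

theorem coeff_mul_one_sub_pow (F : PowerSeries Tor) {n : ℕ} (hn : 0 < n) (μ : ℤ × ℤ) (c m : ℕ) :
    PowerSeries.coeff m (F * (1 - PowerSeries.monomial n (AddMonoidAlgebra.single μ 1)) ^ c) =
      ∑ k ∈ Finset.range (m / n + 1), coef c k •
        (AddMonoidAlgebra.single (k • μ) 1 * PowerSeries.coeff (m - n * k) F) := by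
  have h1 : (1 - PowerSeries.monomial n (AddMonoidAlgebra.single μ 1) : PowerSeries Tor) ^ c =
      ∑ k ∈ Finset.range (c + 1),
        PowerSeries.monomial (n * k) ((coef c k : Tor) * AddMonoidAlgebra.single (k • μ) 1) := by
    rw [sub_eq_neg_add, add_pow]
    apply Finset.sum_congr rfl
    intro k _
    rw [one_pow, mul_one, neg_pow, PowerSeries.monomial_pow, AddMonoidAlgebra.single_pow, one_pow,
      coef_eq, mul_comm n k]
    have h2 : ((((-1) ^ k * (c.choose k : ℤ) : ℤ) : Tor) * AddMonoidAlgebra.single (k • μ) 1) =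
        ((-1) ^ k * (c.choose k : ℤ) : ℤ) • (AddMonoidAlgebra.single (k • μ) 1 : Tor) := by
      rw [zsmul_eq_mul]
    rw [h2, map_zsmul, zsmul_eq_mul]
    push_cast
    ring
  rw [h1, Finset.mul_sum, map_sum]
  have h3 : ∀ k : ℕ, PowerSeries.coeff m (F * PowerSeries.monomial (n * k)
      ((coef c k : Tor) * AddMonoidAlgebra.single (k • μ) 1)) =
      if n * k ≤ m then coef c k •
        (AddMonoidAlgebra.single (k • μ) 1 * PowerSeries.coeff (m - n * k) F) else 0 := by
    intro k
    rw [coeff_mul_monomial]
    split_ifs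
    · rw [zsmul_eq_mul]
      ring
    · rfl
  simp only [h3]
  have h4 : ∑ k ∈ Finset.range (c + 1), (if n * k ≤ m then coef c k •
        (AddMonoidAlgebra.single (k • μ) 1 * PowerSeries.coeff (m - n * k) F) else 0) =
      ∑ k ∈ Finset.range (c + 1 + (m / n + 1)), (if n * k ≤ m then coef c k •
        (AddMonoidAlgebra.single (k • μ) 1 * PowerSeries.coeff (m - n * k) F) else 0) := by
    apply Finset.sum_subset
    · intro k hk
      rw [Finset.mem_range] at hk ⊢
      generalize m / n = q
      omega
    · intro k _ hk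
      have : c < k := by
        simp at hk
        omega
      rw [coef_eq, Nat.choose_eq_zero_of_lt this]
      simp
  rw [h4]
  symm
  have h5 : ∀ k, n * k ≤ m ↔ k < m / n + 1 := by
    intro k
    rw [Nat.lt_succ_iff, Nat.le_div_iff_mul_le hn, mul_comm]
  have h6 : ∑ k ∈ Finset.range (m / n + 1), coef c k •
        (AddMonoidAlgebra.single (k • μ) 1 * PowerSeries.coeff (m - n * k) F) =
      ∑ k ∈ Finset.range (m / n + 1), (if n * k ≤ m then coef c k •
        (AddMonoidAlgebra.single (k • μ) 1 * PowerSeries.coeff (m - n * k) F) else 0) := by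
    apply Finset.sum_congr rfl
    intro k hk
    rw [if_pos ((h5 k).2 (Finset.mem_range.1 hk))]
  rw [h6]
  apply Finset.sum_subset
  · intro k hk
    rw [Finset.mem_range] at hk ⊢
    revert hk
    generalize m / n = q
    intro hk
    omega
  · intro k _ hk
    rw [if_neg]
    intro h
    exact hk (Finset.mem_range.2 ((h5 k).1 h))

theorem val2_foldr (f : ℕ → List (List ℤ)) (N : ℕ) :
    val2 ((List.range N).foldr (fun k acc => add2 (f k) acc) []) =
      ∑ k ∈ Finset.range N, val2 (f k) := by
  have h : ∀ l : List ℕ, val2 (l.foldr (fun k acc => add2 (f k) acc) []) =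
      (l.map (fun k => val2 (f k))).sum := by
    intro l
    induction l with
    | nil => simp [val2]
    | cons a l ih => rw [List.foldr_cons, val2_add2, ih, List.map_cons, List.sum_cons]
  rw [h]
  rfl

theorem rep_mulFac {P : List (List (List ℤ))} {F : PowerSeries Tor} (h : Rep P F) {n : ℕ}
    (hn : 0 < n) {i j : ℕ} {μ : ℤ × ℤ} (hi : (i : ℤ) = n + μ.1) (hj : (j : ℤ) = n + μ.2) (c : ℕ) :
    Rep (mulFac n i j c P)
      (F * (1 - PowerSeries.monomial n (AddMonoidAlgebra.single μ 1)) ^ c) := by
  intro m hm
  have h1 : (mulFac n i j c P).getD m [] = (List.range (m / n + 1)).foldr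
    (fun k acc => add2 (smul2 (coef c k) (shift2 (i * k) (j * k) (P.getD (m - n * k) []))) acc)
      [] := by
    unfold mulFac
    rw [List.getD_eq_getElem _ _ (by simpa using hm)]
    simp
  rw [h1, val2_foldr, coeff_mul_one_sub_pow F hn, Finset.mul_sum]
  apply Finset.sum_congr rfl
  intro k hk
  have h2 : n * k ≤ m := by
    have := Finset.mem_range.1 hk
    rw [Nat.lt_succ_iff, Nat.le_div_iff_mul_le hn] at this
    rwa [mul_comm]
  rw [val2_smul2, val2_shift2, h (m - n * k) (by omega), mul_smul_comm, ← mul_assoc, ← mul_assoc,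
    AddMonoidAlgebra.single_mul_single, AddMonoidAlgebra.single_mul_single]
  have h3 : (((i * k : ℕ) : ℤ), ((j * k : ℕ) : ℤ)) + (((m - n * k : ℕ) : ℤ), ((m - n * k : ℕ) : ℤ)) =
      ((m : ℤ), (m : ℤ)) + k • μ := by
    rw [Nat.cast_sub h2]
    ext
    · simp [hi]
      ring
    · simp [hj]
      ring
  rw [h3]

/-- The multiplicity computed from a table. -/
def multT (x y : ℕ) (P : List (List (List ℤ))) (m : ℕ) : ℤ :=
  ((P.getD m []).getD (m + y) []).getD (m + x) 0 -
  ((P.getD m []).getD (m + y) []).getD (m + (x + 1)) 0 -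
  ((P.getD m []).getD (m + (y + 1)) []).getD (m + x) 0 +
  ((P.getD m []).getD (m + (y + 1)) []).getD (m + (x + 2)) 0 +
  ((P.getD m []).getD (m + (y + 2)) []).getD (m + (x + 1)) 0 -
  ((P.getD m []).getD (m + (y + 2)) []).getD (m + (x + 2)) 0

theorem mult_eq {P : List (List (List ℤ))} {F : PowerSeries Tor} (h : Rep P F) {m : ℕ}
    (hm : m < 10) (x y : ℕ) : mult (x, y) (PowerSeries.coeff m F) = multT x y P m := by
  have key : ∀ a b : ℕ, (PowerSeries.coeff m F).coeff ((a : ℤ), (b : ℤ)) =
      ((P.getD m []).getD (m + b) []).getD (m + a) 0 := by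
    intro a b
    have h1 := congrArg (fun f : Tor => f.coeff ((m + a : ℤ), (m + b : ℤ))) (h m hm)
    simp only [AddMonoidAlgebra.coeff_single_mul_apply, one_mul, coeff_val2] at h1
    rw [if_pos ⟨by omega, by omega⟩] at h1
    have h2 : ((m : ℤ) + b).toNat = m + b := by omega
    have h3 : ((m : ℤ) + a).toNat = m + a := by omega
    rw [h2, h3] at h1
    rw [h1]
    congr 1
    ext <;> simp
  unfold mult multT
  rw [← key, ← key, ← key, ← key, ← key, ← key]
  push_cast
  rfl

end Q5.AltChar
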