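import Pool.Agent.Q5.AltChar.Multi
import Pool.Agent.Q5.AltChar.Table

set_option autoImplicit false

/-!
# Dimensions
-/

open Finset

namespace Q5.AltChar

variable {d : ℕ}

/-- The map which replaces all coordinates of the torus of `GL_d` by one variable. -/
noncomputable def coll (d : ℕ) : Chars d →+* PowerSeries Tor :=
  (MvPowerSeries.rename (R := Tor) (fun _ : Fin d => ())).toRingHom

theorem mapDomain_unit (α : Fin d →₀ ℕ) :
    Finsupp.mapDomain (fun _ : Fin d => ()) α = Finsupp.single () α.degree := by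
  classical
  ext
  rw [Finsupp.mapDomain, Finsupp.sum_apply, Finsupp.single_eq_same, Finsupp.degree_eq_sum,
    Finsupp.sum_fintype _ _ (by simp)]
  simp

theorem coeff_coll (n : ℕ) (f : Chars d) : PowerSeries.coeff n (coll d f) =
    ∑ α ∈ Finset.finsuppAntidiag Finset.univ n, MvPowerSeries.coeff α f := by
  show MvPowerSeries.coeff (Finsupp.single () n)
    (MvPowerSeries.rename (R := Tor) (fun _ : Fin d => ()) f) = _
  rw [MvPowerSeries.coeff_rename]
  apply Finset.sum_congr _ (fun _ _ => rfl)
  ext α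
  rw [mem_finsuppAntidiag', Set.Finite.mem_toFinset, Set.mem_preimage, Set.mem_singleton_iff,
    mapDomain_unit]
  constructor
  · intro h
    exact Finsupp.single_injective _ h
  · intro h
    rw [h]

/-- The class of a weight in one variable. -/
noncomputable def mono (n : ℕ) (μ : ℤ × ℤ) : PowerSeries Tor :=
  PowerSeries.monomial n (AddMonoidAlgebra.single μ 1)

theorem coll_wt (α : Fin d →₀ ℕ) (μ : ℤ × ℤ) : coll d (wt α μ) = mono α.degree μ := by
  show MvPowerSeries.rename (R := Tor) (fun _ : Fin d => ()) (MvPowerSeries.monomial α _) = _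
  rw [MvPowerSeries.rename_monomial, mapDomain_unit]
  rfl

theorem isUnit_mono {n : ℕ} (hn : 0 < n) (μ : ℤ × ℤ) : IsUnit (1 - mono n μ) := by
  rw [PowerSeries.isUnit_iff_constantCoeff, map_sub, map_one]
  have h : PowerSeries.constantCoeff (mono n μ) = 0 := by
    rw [← PowerSeries.coeff_zero_eq_constantCoeff_apply]
    unfold mono
    rw [PowerSeries.coeff_monomial, if_neg (by omega)]
  rw [h, sub_zero]
  exact isUnit_one

/-- The product in one variable. -/
noncomputable def lam1 (A B : ℕ → ℤ) (N : ℕ) : PowerSeries Tor :=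
  ∏ n ∈ Finset.range N, fac (mono (n + 1)) (A (n + 1)) (B (n + 1))

theorem coll_lamTrunc (a b : (Fin d →₀ ℕ) → ℤ) (N : ℕ) : coll d (lamTrunc a b N) =
    lam1 (fun n => ∑ α ∈ Finset.finsuppAntidiag Finset.univ n, a α)
      (fun n => ∑ α ∈ Finset.finsuppAntidiag Finset.univ n, b α) N := by
  unfold lamTrunc lam1
  rw [map_prod]
  apply Finset.prod_congr rfl
  intro n _
  rw [map_prod, ← fac_sum (fun μ => isUnit_mono (by omega) μ)]
  apply Finset.prod_congr rfl
  intro α hα
  have h1 := mem_finsuppAntidiag'.1 hα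
  rw [factor_eq, map_fac (coll d) (fun μ => isUnit_wt (by omega) μ)]
  congr 1
  funext μ
  rw [coll_wt, h1]

theorem card_one (d : ℕ) :
    (Finset.finsuppAntidiag (Finset.univ : Finset (Fin d)) 1).card = d := by
  have h1 : Finset.finsuppAntidiag (Finset.univ : Finset (Fin d)) 1 =
      Finset.univ.image (fun i : Fin d => Finsupp.single i 1) := by
    ext α
    rw [mem_finsuppAntidiag', Finset.mem_image]
    constructor
    · intro h
      obtain ⟨i, hi⟩ := (Finsupp.sum_eq_one_iff α).1 h
      exact ⟨i, Finset.mem_univ i, hi.symm⟩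
    · rintro ⟨i, _, rfl⟩
      exact Finsupp.degree_single i 1
  rw [h1, Finset.card_image_of_injective _ (Finsupp.single_left_injective one_ne_zero),
    Finset.card_univ, Fintype.card_fin]

/-- The dimensions of a solution in terms of the dimensions in lower degrees. -/
theorem IsSolution.step1 {a b : (Fin d →₀ ℕ) → ℤ} (h : IsSolution a b) {A B : ℕ → ℤ}
    (hA : A = fun n => ∑ α ∈ Finset.finsuppAntidiag Finset.univ n, a α)
    (hB : B = fun n => ∑ α ∈ Finset.finsuppAntidiag Finset.univ n, b α) (n : ℕ) :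
    A (n + 1) = mult (1, 1) (PowerSeries.coeff (n + 1) (lam1 A B n)) + (if n = 0 then (d : ℤ) else 0)
    ∧ B (n + 1) = mult (0, 0) (PowerSeries.coeff (n + 1) (lam1 A B n)) := by
  have h1 : lam1 A B n = coll d (lamTrunc a b n) := by
    rw [coll_lamTrunc, hA, hB]
  rw [h1, coeff_coll, mult_sum, mult_sum, hA, hB]
  constructor
  · show ∑ α ∈ Finset.finsuppAntidiag Finset.univ (n + 1), a α = _
    rw [Finset.sum_congr rfl (fun α hα => (h.step (mem_finsuppAntidiag'.1 hα)).1),
      Finset.sum_add_distrib]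
    congr 1
    by_cases hn : n = 0
    · subst hn
      rw [if_pos rfl]
      simp only [if_true]
      rw [Finset.sum_const]
      have := card_one d
      simp [this]
    · simp [hn]
  · show ∑ α ∈ Finset.finsuppAntidiag Finset.univ (n + 1), b α = _
    rw [Finset.sum_congr rfl (fun α hα => (h.step (mem_finsuppAntidiag'.1 hα)).2)]

/-- Multiplication by the factors of degree `n` with natural numbers as exponents. -/
def stage (n A B : ℕ) (P : List (List (List ℤ))) : List (List (List ℤ)) :=
  mulFac n n n B (mulFac n n n A (mulFac n n n A (mulFac n (n + 1) n A (mulFac n n (n + 1) A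
    (mulFac n (n + 1) (n + 1) A (mulFac n (n - 1) n A (mulFac n n (n - 1) A
      (mulFac n (n - 1) (n - 1) A P))))))))

theorem fac_nat (n A B : ℕ) : fac (mono n) A B =
    (1 - mono n (-1, -1)) ^ A * (1 - mono n (0, -1)) ^ A * (1 - mono n (-1, 0)) ^ A *
    (1 - mono n (1, 1)) ^ A * (1 - mono n (0, 1)) ^ A * (1 - mono n (1, 0)) ^ A *
    (1 - mono n (0, 0)) ^ A * (1 - mono n (0, 0)) ^ A * (1 - mono n (0, 0)) ^ B := by
  unfold fac adjWeights
  simp only [List.map_cons, List.map_nil, List.prod_cons, List.prod_nil, zp_nat]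
  have : (0 : ℤ × ℤ) = (0, 0) := rfl
  rw [this]
  ring

theorem rep_stage {P : List (List (List ℤ))} {F : PowerSeries Tor} (h : Rep P F) {n : ℕ}
    (hn : 0 < n) (A B : ℕ) : Rep (stage n A B P) (F * fac (mono n) A B) := by
  rw [fac_nat]
  simp only [← mul_assoc]
  unfold stage
  refine rep_mulFac ?_ hn (by simp) (by simp) B
  refine rep_mulFac ?_ hn (by simp) (by simp) A
  refine rep_mulFac ?_ hn (by simp) (by simp) A
  refine rep_mulFac ?_ hn (by simp) (by simp) A
  refine rep_mulFac ?_ hn (by simp) (by simp) A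
  refine rep_mulFac ?_ hn (by simp) (by simp) A
  refine rep_mulFac ?_ hn (by rw [Nat.cast_sub hn]; push_cast; ring) (by simp) A
  refine rep_mulFac ?_ hn (by simp) (by rw [Nat.cast_sub hn]; push_cast; ring) A
  exact rep_mulFac h hn (by rw [Nat.cast_sub hn]; push_cast; ring)
    (by rw [Nat.cast_sub hn]; push_cast; ring) A

theorem rep_one : Rep [[[1]]] 1 := by
  intro m hm
  cases m with
  | zero =>
    simp only [List.getD_cons_zero, val2, val1]
    simp [AddMonoidAlgebra.one_def]
    rfl
  | succ m =>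
    simp [val2, PowerSeries.coeff_one]

/-- The dimensions `A`. -/
def valA : ℕ → ℕ
  | 1 => 4 | 2 => 16 | 3 => 68 | 4 => 288 | 5 => 1196 | 6 => 4816 | 7 => 18752 | 8 => 70784
  | _ => 0

/-- The dimensions `B`. -/
def valB : ℕ → ℕ
  | 2 => 6 | 3 => 40 | 4 => 201 | 5 => 936 | 6 => 4038 | 7 => 16736 | 8 => 66196
  | _ => 0

/-- The tables. -/
def tab : ℕ → List (List (List ℤ))
  | 0 => [[[1]]]
  | n + 1 => stage (n + 1) (valA (n + 1)) (valB (n + 1)) (tab n)

theorem rep_tab (n : ℕ) : Rep (tab n) (lam1 (fun n => (valA n : ℤ)) (fun n => (valB n : ℤ)) n) := by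
  induction n with
  | zero =>
    unfold lam1
    rw [Finset.prod_range_zero]
    exact rep_one
  | succ n ih =>
    unfold lam1 at ih ⊢
    rw [Finset.prod_range_succ]
    exact rep_stage ih (by omega) _ _

end Q5.AltChar
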