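import Mathlib

set_option autoImplicit false

/-!
# Characters of graded modules for `GL_d × PSL₃`
-/

namespace Q5.AltChar

/-- Laurent polynomials with integer coefficients in the simple roots of `PSL₃`, that is, the
characters of its maximal torus; the exponent `(i, j)` stands for the weight `i α₁ + j α₂`. -/
abbrev Tor : Type := AddMonoidAlgebra ℤ (ℤ × ℤ)

/-- The multiplicity `∑_w sgn(w) f(lam + ρ - w ρ)` of the irreducible `PSL₃`-module `L(lam)` in a
module with character `f`; here `w` is in the Weyl group and `ρ = α₁ + α₂`. -/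
def mult (lam : ℤ × ℤ) (f : Tor) : ℤ :=
  f.coeff lam - f.coeff (lam + (1, 0)) - f.coeff (lam + (0, 1)) + f.coeff (lam + (2, 1)) +
    f.coeff (lam + (1, 2)) - f.coeff (lam + (2, 2))

/-- The weights of the adjoint module `L(α₁ + α₂)` of `PSL₃`. -/
def adjWeights : List (ℤ × ℤ) :=
  [(0, 0), (0, 0), (1, 0), (0, 1), (1, 1), (-1, 0), (0, -1), (-1, -1)]

/-- The ring of characters of graded modules for `GL_d × PSL₃`, completed with respect to the
degree: power series in the `d` coordinates of the diagonal torus of `GL_d` with coefficients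
in `Tor`. -/
abbrev Chars (d : ℕ) : Type := MvPowerSeries (Fin d) Tor

/-- The character of a one-dimensional module of weight `(α, μ)`. -/
noncomputable def wt {d : ℕ} (α : Fin d →₀ ℕ) (μ : ℤ × ℤ) : Chars d :=
  MvPowerSeries.monomial α (AddMonoidAlgebra.single μ 1)

/-- The power `u ^ c` of an invertible element `u` of a commutative ring, for an integer `c`. -/
noncomputable def zp {S : Type*} [CommRing S] (u : S) (c : ℤ) : S :=
  u ^ c.toNat * Ring.inverse u ^ (-c).toNat

/-- The value of the operation `λ` at `x ^ α (a [L(α₁ + α₂)] + b [L(0)])`. -/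
noncomputable def factor {d : ℕ} (α : Fin d →₀ ℕ) (a b : ℤ) : Chars d :=
  (adjWeights.map (fun μ => zp (1 - wt α μ) a)).prod * zp (1 - wt α 0) b

/-- The part of degree at most `N` of the product which defines
`λ(a [L(α₁ + α₂)] + b [L(0)])`, for `a = ∑ a(α) x ^ α` and `b = ∑ b(α) x ^ α`. -/
noncomputable def lamTrunc {d : ℕ} (a b : (Fin d →₀ ℕ) → ℤ) (N : ℕ) : Chars d :=
  ∏ n ∈ Finset.range N, ∏ α ∈ Finset.finsuppAntidiag Finset.univ (n + 1),
    factor α (a α) (b α)

/-- The element `Φ = λ(a [L(α₁ + α₂)] + b [L(0)])`: its coefficient at `x ^ β` only depends on the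
factors of degree at most the degree of `β`. -/
noncomputable def Phi {d : ℕ} (a b : (Fin d →₀ ℕ) → ℤ) : Chars d :=
  fun β => MvPowerSeries.coeff β (lamTrunc a b β.degree)

/-- The equations `[Φ : L(0)] = 1` and `[Φ : L(α₁ + α₂)] = -[V]` which determine `a(V)` and `b(V)`,
where `V` has dimension `d`. -/
structure IsSolution {d : ℕ} (a b : (Fin d →₀ ℕ) → ℤ) : Prop where
  a_zero : a 0 = 0
  b_zero : b 0 = 0
  trivial : ∀ β, mult (0, 0) (MvPowerSeries.coeff β (Phi a b)) = if β = 0 then 1 else 0
  adjoint : ∀ β, mult (1, 1) (MvPowerSeries.coeff β (Phi a b)) = if β.degree = 1 then -1 else 0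

/-- The weight of a nonassociative monomial. -/
noncomputable def content {d : ℕ} : FreeMagma (Fin d) → (Fin d →₀ ℕ)
  | .of i => Finsupp.single i 1
  | .mul x y => content x + content y

/-- The smallest ideal of the free nonassociative algebra which contains `(x x) y - x (x y)` and
`(y x) x - y (x x)` for all `x, y`. -/
noncomputable def altIdeal (k : Type*) [Field k] (d : ℕ) : Submodule k (FreeNonUnitalNonAssocAlgebra k (Fin d)) :=
  sInf {I | (∀ x y, (x * x) * y - x * (x * y) ∈ I) ∧ (∀ x y, (y * x) * x - y * (x * x) ∈ I) ∧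
    ∀ x y, x ∈ I → x * y ∈ I ∧ y * x ∈ I}

/-- The free alternative algebra `Alt(V)` on a space `V` with a basis of `d` elements. -/
abbrev Alt (k : Type*) [Field k] (d : ℕ) : Type _ :=
  FreeNonUnitalNonAssocAlgebra k (Fin d) ⧸ altIdeal k d

/-- The weight space of weight `α` of `Alt(V)`: it is spanned by the monomials of weight `α`. -/
noncomputable def weightSpace (k : Type*) [Field k] {d : ℕ} (α : Fin d →₀ ℕ) : Submodule k (Alt k d) :=
  Submodule.span k {x | ∃ w : FreeMagma (Fin d), content w = α ∧
    x = (altIdeal k d).mkQ (MonoidAlgebra.single w 1)}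

/-- The character of `Alt(V)`, which is the class of `Alt(V)` in the Grothendieck ring. -/
noncomputable def altChar (k : Type*) [Field k] {d : ℕ} (α : Fin d →₀ ℕ) : ℤ :=
  Module.finrank k (weightSpace k α)

end Q5.AltChar
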