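import Pool.Agent.Q5.AltChar.Defs

set_option autoImplicit false

/-!
# A lower bound for the dimensions of the free alternative algebra
-/

open Finset

namespace Q5.AltChar

variable (k : Type*) [Field k] {d : ℕ}

/-- The word of a nonassociative monomial. -/
def toWord : FreeMagma (Fin d) → FreeMonoid (Fin d)
  | .of i => FreeMonoid.of i
  | .mul x y => toWord x * toWord y

/-- The map to the free associative algebra. -/
noncomputable def toAssoc (d : ℕ) :
    FreeNonUnitalNonAssocAlgebra k (Fin d) →ₙₐ[k] MonoidAlgebra k (FreeMonoid (Fin d)) :=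
  FreeNonUnitalNonAssocAlgebra.lift k (fun i => MonoidAlgebra.single (FreeMonoid.of i) 1)

theorem toAssoc_single (w : FreeMagma (Fin d)) :
    toAssoc k d (MonoidAlgebra.single w 1) = MonoidAlgebra.single (toWord w) 1 := by
  induction w with
  | ih1 i => exact FreeNonUnitalNonAssocAlgebra.lift_of_apply k _ i
  | ih2 x y hx hy =>
    have h1 : (MonoidAlgebra.single (x * y) 1 : FreeNonUnitalNonAssocAlgebra k (Fin d)) =
        MonoidAlgebra.single x 1 * MonoidAlgebra.single y 1 := by
      rw [MonoidAlgebra.single_mul_single, one_mul]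
    rw [h1, map_mul, hx, hy, MonoidAlgebra.single_mul_single, one_mul]
    rfl

/-- The map to the free associative algebra as a linear map. -/
noncomputable def toAssocLin (d : ℕ) :
    FreeNonUnitalNonAssocAlgebra k (Fin d) →ₗ[k] MonoidAlgebra k (FreeMonoid (Fin d)) :=
  (toAssoc k d : FreeNonUnitalNonAssocAlgebra k (Fin d) →ₗ[k] MonoidAlgebra k (FreeMonoid (Fin d)))

theorem altIdeal_le : altIdeal k d ≤ LinearMap.ker (toAssocLin k d) := by
  apply sInf_le
  refine ⟨?_, ?_, ?_⟩
  · intro x y
    rw [LinearMap.mem_ker]
    show toAssoc k d _ = 0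
    rw [map_sub, map_mul, map_mul, map_mul, map_mul, mul_assoc, sub_self]
  · intro x y
    rw [LinearMap.mem_ker]
    show toAssoc k d _ = 0
    rw [map_sub, map_mul, map_mul, map_mul, map_mul, mul_assoc, sub_self]
  · intro x y hx
    rw [LinearMap.mem_ker] at hx
    change toAssoc k d x = 0 at hx
    constructor
    · rw [LinearMap.mem_ker]
      show toAssoc k d _ = 0
      rw [map_mul, hx, zero_mul]
    · rw [LinearMap.mem_ker]
      show toAssoc k d _ = 0
      rw [map_mul, hx, mul_zero]

/-- The induced map on the free alternative algebra. -/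
noncomputable def ofAlt (d : ℕ) : Alt k d →ₗ[k] MonoidAlgebra k (FreeMonoid (Fin d)) :=
  (altIdeal k d).liftQ (toAssocLin k d) (altIdeal_le k)

theorem ofAlt_mk (w : FreeMagma (Fin d)) :
    ofAlt k d ((altIdeal k d).mkQ (MonoidAlgebra.single w 1)) =
      MonoidAlgebra.single (toWord w) 1 := by
  rw [← toAssoc_single]
  exact (altIdeal k d).liftQ_apply (toAssocLin k d) _

/-- The number of letters. -/
def len : FreeMagma (Fin d) → ℕ
  | .of _ => 1
  | .mul x y => len x + len y

theorem content_degree (w : FreeMagma (Fin d)) : (content w).degree = len w := by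
  induction w with
  | ih1 i =>
    show (Finsupp.single i 1).degree = 1
    exact Finsupp.degree_single i 1
  | ih2 x y hx hy =>
    show (content x + content y).degree = len x + len y
    rw [map_add, hx, hy]

theorem len_pos (w : FreeMagma (Fin d)) : 1 ≤ len w := by
  induction w with
  | ih1 i => exact le_rfl
  | ih2 x y hx hy =>
    show 1 ≤ len x + len y
    omega

theorem finite_len (n : ℕ) : {w : FreeMagma (Fin d) | len w ≤ n}.Finite := by
  induction n with
  | zero =>
    convert Set.finite_empty
    ext w
    simp only [Set.mem_ofPred_eq, Set.mem_empty_iff_false, iff_false]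
    have := len_pos w
    omega
  | succ n ih =>
    have h1 : {w : FreeMagma (Fin d) | len w ≤ n + 1} ⊆
        Set.range (fun i : Fin d => FreeMagma.of i) ∪
        (fun p : FreeMagma (Fin d) × FreeMagma (Fin d) => p.1 * p.2) ''
          ({w | len w ≤ n} ×ˢ {w | len w ≤ n}) := by
      intro w hw
      cases w with
      | of i => exact Or.inl ⟨i, rfl⟩
      | mul x y =>
        right
        refine ⟨(x, y), ?_, rfl⟩
        have h2 : len x + len y ≤ n + 1 := hw
        have h3 := len_pos x
        have h4 := len_pos y
        constructor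
        · show len x ≤ n
          omega
        · show len y ≤ n
          omega
    exact Set.Finite.subset ((Set.finite_range _).union ((ih.prod ih).image _)) h1

instance finite_weightSpace (α : Fin d →₀ ℕ) : Module.Finite k (weightSpace k α) := by
  unfold weightSpace
  have h1 : {x | ∃ w : FreeMagma (Fin d), content w = α ∧
      x = (altIdeal k d).mkQ (MonoidAlgebra.single w 1)}.Finite := by
    have h2 := ((finite_len (d := d) α.degree).image
      (fun w => (altIdeal k d).mkQ (MonoidAlgebra.single w (1 : k))))
    refine h2.subset ?_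
    rintro x ⟨w, hw, rfl⟩
    refine ⟨w, ?_, rfl⟩
    show len w ≤ _
    rw [← content_degree, hw]
  exact Module.Finite.span_of_finite k h1

/-- A monomial for a word. -/
def magmaOf : (n : ℕ) → (Fin (n + 1) → Fin d) → FreeMagma (Fin d)
  | 0, v => FreeMagma.of (v 0)
  | n + 1, v => FreeMagma.of (v 0) * magmaOf n (fun i => v i.succ)

theorem toWord_magmaOf (n : ℕ) (v : Fin (n + 1) → Fin d) :
    toWord (magmaOf n v) = FreeMonoid.ofList (List.ofFn v) := by
  induction n with
  | zero =>
    show FreeMonoid.of (v 0) = _
    rw [List.ofFn_succ]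
    simp
  | succ n ih =>
    show FreeMonoid.of (v 0) * toWord (magmaOf n (fun i => v i.succ)) = _
    rw [ih, List.ofFn_succ (f := v)]
    rfl

theorem content_magmaOf_degree (n : ℕ) (v : Fin (n + 1) → Fin d) :
    (content (magmaOf n v)).degree = n + 1 := by
  induction n with
  | zero => exact Finsupp.degree_single (v 0) 1
  | succ n ih =>
    show (Finsupp.single (v 0) 1 + content (magmaOf n (fun i => v i.succ))).degree = _
    rw [map_add, ih, Finsupp.degree_single]
    omega

theorem card_le_finrank (n : ℕ) (α : Fin d →₀ ℕ) :
    (Finset.univ.filter (fun v : Fin (n + 1) → Fin d => content (magmaOf n v) = α)).card ≤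
      Module.finrank k (weightSpace k α) := by
  classical
  let s := Finset.univ.filter (fun v : Fin (n + 1) → Fin d => content (magmaOf n v) = α)
  let f : s → weightSpace k α := fun v =>
    ⟨(altIdeal k d).mkQ (MonoidAlgebra.single (magmaOf n v.1) 1),
      Submodule.subset_span ⟨_, (Finset.mem_filter.1 v.2).2, rfl⟩⟩
  have h1 : LinearIndependent k f := by
    apply LinearIndependent.of_comp ((ofAlt k d).comp (weightSpace k α).subtype)
    have h2 : (((ofAlt k d).comp (weightSpace k α).subtype) : weightSpace k α → _) ∘ f =
        fun v : s => (MonoidAlgebra.single (FreeMonoid.ofList (List.ofFn v.1)) 1 :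
          MonoidAlgebra k (FreeMonoid (Fin d))) := by
      funext v
      show ofAlt k d ((altIdeal k d).mkQ (MonoidAlgebra.single (magmaOf n v.1) 1)) = _
      rw [ofAlt_mk, toWord_magmaOf]
    rw [h2]
    have h3 : LinearIndependent k (fun w : FreeMonoid (Fin d) =>
        (MonoidAlgebra.single w 1 : MonoidAlgebra k (FreeMonoid (Fin d)))) := by
      have h4 := (Finsupp.basisSingleOne (R := k) (ι := FreeMonoid (Fin d))).linearIndependent
      apply LinearIndependent.of_comp (MonoidAlgebra.coeffLinearEquiv k).toLinearMap
      convert h4 using 1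
      funext w
      simp
    exact h3.comp (fun v : s => FreeMonoid.ofList (List.ofFn v.1)) (by
      intro v w hvw
      apply Subtype.ext
      exact List.ofFn_injective (FreeMonoid.ofList.injective hvw))
  have h5 := h1.fintype_card_le_finrank
  rw [Fintype.card_coe] at h5
  exact h5

/-- The dimension of the homogeneous component of degree `n + 1` of `Alt(V)` is at least
`d ^ (n + 1)`. -/
theorem pow_le_sum_altChar (n : ℕ) :
    (d : ℤ) ^ (n + 1) ≤ ∑ α ∈ Finset.finsuppAntidiag Finset.univ (n + 1), altChar k (d := d) α := by
  classical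
  have h1 : (Finset.univ : Finset (Fin (n + 1) → Fin d)).card =
      ∑ α ∈ Finset.finsuppAntidiag Finset.univ (n + 1),
        (Finset.univ.filter (fun v : Fin (n + 1) → Fin d => content (magmaOf n v) = α)).card := by
    apply Finset.card_eq_sum_card_fiberwise
    intro v _
    rw [Finset.mem_coe, Finset.mem_finsuppAntidiag]
    refine ⟨?_, by simp⟩
    have h0 := content_magmaOf_degree n v
    rw [Finsupp.degree_eq_sum] at h0
    exact h0
  rw [Finset.card_univ, Fintype.card_fun, Fintype.card_fin, Fintype.card_fin] at h1
  have h2 : ((d ^ (n + 1) : ℕ) : ℤ) = (d : ℤ) ^ (n + 1) := by push_cast; rfl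
  rw [← h2, h1]
  push_cast
  apply Finset.sum_le_sum
  intro α _
  unfold altChar
  exact_mod_cast card_le_finrank k n α

end Q5.AltChar
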