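import Pool.Agent.Q5.AltChar.Collapse
import Pool.Agent.Q5.AltChar.Lower

set_option autoImplicit false

/-!
# The computation for `d = 4` up to degree nine
-/

open Finset

namespace Q5.AltChar

theorem check : ∀ n < 8, multT 1 1 (tab n) (n + 1) + (if n = 0 then 4 else 0) = valA (n + 1) ∧
    multT 0 0 (tab n) (n + 1) = valB (n + 1) := by
  decide +kernel

theorem check9 : multT 1 1 (tab 8) 9 = 261176 := by
  decide +kernel

theorem lam1_congr {A B A' B' : ℕ → ℤ} {n : ℕ}
    (h : ∀ m, 1 ≤ m → m ≤ n → A m = A' m ∧ B m = B' m) : lam1 A B n = lam1 A' B' n := by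
  unfold lam1
  apply Finset.prod_congr rfl
  intro m hm
  have h2 := Finset.mem_range.1 hm
  obtain ⟨h3, h4⟩ := h (m + 1) (by omega) (by omega)
  rw [h3, h4]

/-- The dimension in degree nine. -/
theorem dim_nine {a b : (Fin 4 →₀ ℕ) → ℤ} (h : IsSolution a b) :
    ∑ α ∈ Finset.finsuppAntidiag Finset.univ 9, a α = 261176 := by
  obtain ⟨A, hA⟩ : ∃ A : ℕ → ℤ, A = fun n => ∑ α ∈ Finset.finsuppAntidiag Finset.univ n, a α :=
    ⟨_, rfl⟩
  obtain ⟨B, hB⟩ : ∃ B : ℕ → ℤ, B = fun n => ∑ α ∈ Finset.finsuppAntidiag Finset.univ n, b α :=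
    ⟨_, rfl⟩
  have key : ∀ n ≤ 8, ∀ m, 1 ≤ m → m ≤ n → A m = (valA m : ℤ) ∧ B m = (valB m : ℤ) := by
    intro n
    induction n with
    | zero =>
      intro _ m h1 h2
      omega
    | succ n ih =>
      intro hn m h1 h2
      by_cases h3 : m ≤ n
      · exact ih (by omega) m h1 h3
      · have h4 : m = n + 1 := by omega
        subst h4
        obtain ⟨h5, h6⟩ := h.step1 hA hB n
        have h7 := lam1_congr (ih (by omega))
        rw [h7] at h5 h6
        have h8 := mult_eq (rep_tab n) (show n + 1 < 10 by omega) 1 1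
        have h9 := mult_eq (rep_tab n) (show n + 1 < 10 by omega) 0 0
        obtain ⟨h10, h11⟩ := check n (by omega)
        simp only [Nat.cast_one, Nat.cast_zero] at h8 h9
        rw [h5, h6, h8, h9]
        exact ⟨h10, h11⟩
  obtain ⟨h5, _⟩ := h.step1 hA hB 8
  have h7 := lam1_congr (key 8 le_rfl)
  rw [h7] at h5
  have h8 := mult_eq (rep_tab 8) (show 9 < 10 by omega) 1 1
  simp only [Nat.cast_one] at h8
  rw [h8, check9] at h5
  have h9 : A 9 = 261176 := by
    rw [h5]
    norm_num
  rw [hA] at h9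
  exact h9

/-- The element `a(V)` is not the class of the free alternative algebra. -/
theorem ne_altChar (k : Type*) [Field k] {a b : (Fin 4 →₀ ℕ) → ℤ} (h : IsSolution a b) :
    a ≠ altChar k := by
  intro h1
  have h2 := pow_le_sum_altChar k (d := 4) 8
  rw [← h1, dim_nine h] at h2
  norm_num at h2

end Q5.AltChar
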