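import Pool.Agent.Q5.AltChar.Basic

set_option autoImplicit false

/-!
# The equations determine the pair
-/

open MvPowerSeries Finset

namespace Q5.AltChar

section ideal

variable {σ R : Type*} [CommRing R]

/-- The power series without terms of degree less than `N`. -/
noncomputable def ordIdeal (σ R : Type*) [CommRing R] (N : ℕ) : Ideal (MvPowerSeries σ R) where
  carrier := {f | ∀ β : σ →₀ ℕ, β.degree < N → coeff β f = 0}
  zero_mem' := by
    intro β _
    simp
  add_mem' := by
    intro f g hf hg β hβ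
    rw [map_add, hf β hβ, hg β hβ, add_zero]
  smul_mem' := by
    classical
    intro c f hf β hβ
    rw [smul_eq_mul, coeff_mul]
    apply Finset.sum_eq_zero
    intro p hp
    have h1 := Finset.HasAntidiagonal.mem_antidiagonal.1 hp
    have h2 : p.1.degree + p.2.degree = β.degree := by
      rw [← h1, map_add]
    rw [hf p.2 (by omega), mul_zero]

theorem mem_ordIdeal {N : ℕ} {f : MvPowerSeries σ R} :
    f ∈ ordIdeal σ R N ↔ ∀ β : σ →₀ ℕ, β.degree < N → coeff β f = 0 := Iff.rfl

theorem ordIdeal_mul (N M : ℕ) : ordIdeal σ R N * ordIdeal σ R M ≤ ordIdeal σ R (N + M) := by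
  classical
  rw [Ideal.mul_le]
  intro f hf g hg β hβ
  rw [coeff_mul]
  apply Finset.sum_eq_zero
  intro p hp
  have h1 := Finset.HasAntidiagonal.mem_antidiagonal.1 hp
  have h2 : p.1.degree + p.2.degree = β.degree := by
    rw [← h1, map_add]
  by_cases h : p.1.degree < N
  · rw [hf p.1 h, zero_mul]
  · rw [hg p.2 (by omega), mul_zero]

theorem ordIdeal_anti {N M : ℕ} (h : N ≤ M) : ordIdeal σ R M ≤ ordIdeal σ R N :=
  fun _ hf β hβ => hf β (by omega)

theorem monomial_mem {α : σ →₀ ℕ} {N : ℕ} (h : N ≤ α.degree) (r : R) :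
    (monomial α r : MvPowerSeries σ R) ∈ ordIdeal σ R N := by
  classical
  intro β hβ
  rw [coeff_monomial, if_neg]
  rintro rfl
  omega

theorem isUnit_one_sub {f : MvPowerSeries σ R} (hf : f ∈ ordIdeal σ R 1) : IsUnit (1 - f) := by
  rw [isUnit_iff_constantCoeff, map_sub, map_one]
  have h : constantCoeff f = 0 := by
    have := hf 0 (by simp)
    simpa using this
  rw [h, sub_zero]
  exact isUnit_one

end ideal

variable {d : ℕ}

theorem wt_mem {α : Fin d →₀ ℕ} {N : ℕ} (h : N ≤ α.degree) (μ : ℤ × ℤ) :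
    wt α μ ∈ ordIdeal (Fin d) Tor N := monomial_mem h _

theorem isUnit_wt {α : Fin d →₀ ℕ} (h : 1 ≤ α.degree) (μ : ℤ × ℤ) : IsUnit (1 - wt α μ) :=
  isUnit_one_sub (wt_mem h μ)

theorem factor_eq (α : Fin d →₀ ℕ) (a b : ℤ) : factor α a b = fac (wt α) a b := rfl

theorem mem_finsuppAntidiag' {α : Fin d →₀ ℕ} {n : ℕ} :
    α ∈ Finset.finsuppAntidiag Finset.univ n ↔ α.degree = n := by
  rw [Finset.mem_finsuppAntidiag, Finsupp.degree_eq_sum]
  simp

/-- The sum of the terms of degree `n` of the class. -/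
noncomputable def lin (a b : (Fin d →₀ ℕ) → ℤ) (n : ℕ) : Chars d :=
  ∑ α ∈ Finset.finsuppAntidiag Finset.univ n, monomial α ((a α : Tor) * chi + (b α : Tor))

theorem intCast_mul_monomial (α : Fin d →₀ ℕ) (c : ℤ) (f : Tor) :
    (c : Chars d) * monomial α f = monomial α ((c : Tor) * f) := by
  rw [← zsmul_eq_mul, ← map_zsmul, zsmul_eq_mul]

theorem sum_wt (α : Fin d →₀ ℕ) : (adjWeights.map (wt α)).sum = monomial α chi := by
  unfold chi
  rw [map_list_sum, List.map_map]
  rfl

theorem near_level (a b : (Fin d →₀ ℕ) → ℤ) (n : ℕ) :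
    Near (ordIdeal (Fin d) Tor (n + 1)) (ordIdeal (Fin d) Tor (n + 2))
      (∏ α ∈ Finset.finsuppAntidiag Finset.univ (n + 1), factor α (a α) (b α))
      (-lin a b (n + 1)) := by
  have hKJ : ordIdeal (Fin d) Tor (n + 2) ≤ ordIdeal (Fin d) Tor (n + 1) :=
    ordIdeal_anti (by omega)
  have hJ : ordIdeal (Fin d) Tor (n + 1) * ordIdeal (Fin d) Tor (n + 1) ≤
      ordIdeal (Fin d) Tor (n + 2) := (ordIdeal_mul _ _).trans (ordIdeal_anti (by omega))
  have h1 := Near.prod hKJ hJ (Finset.finsuppAntidiag Finset.univ (n + 1))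
    (fun α => factor α (a α) (b α)) (fun α => -monomial α ((a α : Tor) * chi + (b α : Tor))) (by
      intro α hα
      have hd := mem_finsuppAntidiag'.1 hα
      have h2 := fac_near hKJ hJ (x := wt α) (fun μ => wt_mem (by omega) μ)
        (fun μ => isUnit_wt (by omega) μ) (a α) (b α)
      rw [sum_wt, intCast_mul_monomial] at h2
      have h3 : (b α : Chars d) * wt α 0 = monomial α (b α : Tor) := by
        unfold wt
        rw [intCast_mul_monomial]
        congr 1
        exact mul_one _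
      rw [h3, ← map_add] at h2
      exact h2)
  rw [Finset.sum_neg_distrib] at h1
  exact h1

theorem coeff_lin (a b : (Fin d →₀ ℕ) → ℤ) {n : ℕ} {β : Fin d →₀ ℕ} (h : β.degree = n) :
    coeff β (lin a b n) = (a β : Tor) * chi + (b β : Tor) := by
  classical
  unfold lin
  rw [map_sum, Finset.sum_eq_single β]
  · rw [coeff_monomial_same]
  · intro α _ hne
    rw [coeff_monomial, if_neg (Ne.symm hne)]
  · intro hβ
    exact absurd (mem_finsuppAntidiag'.2 h) hβ

theorem lamTrunc_succ (a b : (Fin d →₀ ℕ) → ℤ) (n : ℕ) : lamTrunc a b (n + 1) =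
    lamTrunc a b n * ∏ α ∈ Finset.finsuppAntidiag Finset.univ (n + 1), factor α (a α) (b α) := by
  unfold lamTrunc
  rw [Finset.prod_range_succ]

theorem lamTrunc_zero (a b : (Fin d →₀ ℕ) → ℤ) : lamTrunc a b 0 = 1 := by
  unfold lamTrunc
  simp

theorem lamTrunc_sub_one (a b : (Fin d →₀ ℕ) → ℤ) (n : ℕ) :
    lamTrunc a b n - 1 ∈ ordIdeal (Fin d) Tor 1 := by
  induction n with
  | zero =>
    rw [lamTrunc_zero, sub_self]
    exact Ideal.zero_mem _
  | succ n ih =>
    rw [lamTrunc_succ]
    have h1 := (near_level a b n).sub_mem (ordIdeal_anti (by omega))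
    have h2 := ordIdeal_anti (show 1 ≤ n + 1 by omega) h1
    have h3 : ∀ x y : Chars d, x * y - 1 = x * (y - 1) + (x - 1) := fun x y => by ring
    rw [h3]
    exact Ideal.add_mem _ (Ideal.mul_mem_left _ _ h2) ih

theorem coeff_lamTrunc_of_le (a b : (Fin d →₀ ℕ) → ℤ) {n : ℕ} {β : Fin d →₀ ℕ}
    (h : β.degree ≤ n) : coeff β (lamTrunc a b (n + 1)) = coeff β (lamTrunc a b n) := by
  rw [lamTrunc_succ]
  have h1 := (near_level a b n).sub_mem (ordIdeal_anti (by omega))
  have h2 := Ideal.mul_mem_left _ (lamTrunc a b n) h1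
  have h3 := h2 β (by omega)
  rw [mul_sub, mul_one, map_sub, sub_eq_zero] at h3
  exact h3

theorem coeff_lamTrunc_eq (a b : (Fin d →₀ ℕ) → ℤ) {n m : ℕ} {β : Fin d →₀ ℕ}
    (h : β.degree ≤ n) (h' : n ≤ m) : coeff β (lamTrunc a b m) = coeff β (lamTrunc a b n) := by
  induction m, h' using Nat.le_induction with
  | base => rfl
  | succ m hm ih => rw [coeff_lamTrunc_of_le a b (by omega), ih]

theorem coeff_lamTrunc_succ (a b : (Fin d →₀ ℕ) → ℤ) {n : ℕ} {β : Fin d →₀ ℕ}
    (h : β.degree = n + 1) : coeff β (lamTrunc a b (n + 1)) =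
      coeff β (lamTrunc a b n) - ((a β : Tor) * chi + (b β : Tor)) := by
  rw [lamTrunc_succ]
  obtain ⟨G, hG⟩ : ∃ G, G = ∏ α ∈ Finset.finsuppAntidiag Finset.univ (n + 1),
    factor α (a α) (b α) := ⟨_, rfl⟩
  have h0 := near_level a b n
  rw [← hG] at h0 ⊢
  have h1 : (lamTrunc a b n - 1) * (-lin a b (n + 1)) ∈ ordIdeal (Fin d) Tor (n + 2) := by
    have := ordIdeal_mul (R := Tor) 1 (n + 1) (Ideal.mul_mem_mul (lamTrunc_sub_one a b n) h0.mem')
    exact ordIdeal_anti (by omega) this
  have h2 := Ideal.add_mem _ (Ideal.mul_mem_left _ (lamTrunc a b n) h0.mem) h1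
  have h3 := h2 β (by omega)
  have h4 : lamTrunc a b n * (G - 1 - -lin a b (n + 1)) + (lamTrunc a b n - 1) *
      (-lin a b (n + 1)) = lamTrunc a b n * G - lamTrunc a b n + lin a b (n + 1) := by ring
  rw [h4, map_add, map_sub, coeff_lin a b h] at h3
  rw [← sub_eq_zero]
  rw [← h3]
  ring

theorem lamTrunc_congr {a b a' b' : (Fin d →₀ ℕ) → ℤ} {n : ℕ}
    (h : ∀ α : Fin d →₀ ℕ, 1 ≤ α.degree → α.degree ≤ n → a α = a' α ∧ b α = b' α) :
    lamTrunc a b n = lamTrunc a' b' n := by
  unfold lamTrunc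
  apply Finset.prod_congr rfl
  intro m hm
  apply Finset.prod_congr rfl
  intro α hα
  have h1 := mem_finsuppAntidiag'.1 hα
  have h2 := Finset.mem_range.1 hm
  obtain ⟨h3, h4⟩ := h α (by omega) (by omega)
  rw [h3, h4]

/-- The values of a solution in terms of the values in lower degrees. -/
theorem IsSolution.step {a b : (Fin d →₀ ℕ) → ℤ} (h : IsSolution a b) {n : ℕ}
    {β : Fin d →₀ ℕ} (hβ : β.degree = n + 1) :
    a β = mult (1, 1) (coeff β (lamTrunc a b n)) + (if n = 0 then 1 else 0) ∧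
    b β = mult (0, 0) (coeff β (lamTrunc a b n)) := by
  have hne : β ≠ 0 := by
    rintro rfl
    simp at hβ
  have h1 := h.adjoint β
  have h2 := h.trivial β
  have h3 : coeff β (Phi a b) = coeff β (lamTrunc a b (n + 1)) := by
    show coeff β (lamTrunc a b β.degree) = _
    rw [hβ]
  rw [h3, coeff_lamTrunc_succ a b hβ, mult_sub, mult_lin, mult_chi_one, mult_one_one, hβ] at h1
  rw [h3, coeff_lamTrunc_succ a b hβ, mult_sub, mult_lin, mult_chi_zero, mult_one_zero,
    if_neg hne] at h2
  constructor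
  · by_cases hn : n = 0
    · subst hn
      simp at h1 ⊢
      omega
    · rw [if_neg (by omega)] at h1
      rw [if_neg hn]
      omega
  · omega

theorem IsSolution.unique {a b a' b' : (Fin d →₀ ℕ) → ℤ} (h : IsSolution a b)
    (h' : IsSolution a' b') : a = a' ∧ b = b' := by
  have key : ∀ n : ℕ, ∀ β : Fin d →₀ ℕ, β.degree ≤ n → a β = a' β ∧ b β = b' β := by
    intro n
    induction n with
    | zero =>
      intro β hβ
      have h1 : β = 0 := (Finsupp.degree_eq_zero_iff β).1 (by omega)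
      subst h1
      exact ⟨h.a_zero.trans h'.a_zero.symm, h.b_zero.trans h'.b_zero.symm⟩
    | succ n ih =>
      intro β hβ
      by_cases h1 : β.degree ≤ n
      · exact ih β h1
      · have h2 : β.degree = n + 1 := by omega
        obtain ⟨h3, h4⟩ := h.step h2
        obtain ⟨h5, h6⟩ := h'.step h2
        rw [h3, h4, h5, h6, lamTrunc_congr (fun α _ hα => ih α hα)]
        exact ⟨rfl, rfl⟩
  constructor
  · funext β
    exact (key _ β le_rfl).1
  · funext β
    exact (key _ β le_rfl).2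

/-- The approximations to the solution. -/
noncomputable def approx (d : ℕ) : ℕ → ((Fin d →₀ ℕ) → ℤ) × ((Fin d →₀ ℕ) → ℤ)
  | 0 => (fun _ => 0, fun _ => 0)
  | n + 1 =>
    (fun β => if β.degree = n + 1 then
        mult (1, 1) (coeff β (lamTrunc (approx d n).1 (approx d n).2 n)) +
          (if n = 0 then 1 else 0)
      else (approx d n).1 β,
    fun β => if β.degree = n + 1 then
        mult (0, 0) (coeff β (lamTrunc (approx d n).1 (approx d n).2 n))
      else (approx d n).2 β)

theorem approx_stable {n m : ℕ} (h : n ≤ m) {β : Fin d →₀ ℕ} (hβ : β.degree ≤ n) :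
    (approx d m).1 β = (approx d n).1 β ∧ (approx d m).2 β = (approx d n).2 β := by
  induction m, h using Nat.le_induction with
  | base => exact ⟨rfl, rfl⟩
  | succ m hm ih =>
    rw [← ih.1, ← ih.2]
    constructor
    · show (if β.degree = m + 1 then _ else _) = _
      rw [if_neg (by omega)]
    · show (if β.degree = m + 1 then _ else _) = _
      rw [if_neg (by omega)]

theorem exists_solution (d : ℕ) : ∃ a b : (Fin d →₀ ℕ) → ℤ, IsSolution a b := by
  refine ⟨fun β => (approx d β.degree).1 β, fun β => (approx d β.degree).2 β, ?_⟩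
  obtain ⟨a, ha⟩ : ∃ a : (Fin d →₀ ℕ) → ℤ, a = fun β => (approx d β.degree).1 β := ⟨_, rfl⟩
  obtain ⟨b, hb⟩ : ∃ b : (Fin d →₀ ℕ) → ℤ, b = fun β => (approx d β.degree).2 β := ⟨_, rfl⟩
  rw [← ha, ← hb]
  have hcong : ∀ n, lamTrunc a b n = lamTrunc (approx d n).1 (approx d n).2 n := by
    intro n
    apply lamTrunc_congr
    intro α _ hα
    rw [ha, hb]
    exact ⟨(approx_stable hα le_rfl).1.symm, (approx_stable hα le_rfl).2.symm⟩
  have hstep : ∀ (n : ℕ) (β : Fin d →₀ ℕ), β.degree = n + 1 →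
      a β = mult (1, 1) (coeff β (lamTrunc a b n)) + (if n = 0 then 1 else 0) ∧
      b β = mult (0, 0) (coeff β (lamTrunc a b n)) := by
    intro n β hβ
    rw [hcong n]
    constructor
    · rw [ha]
      show (approx d β.degree).1 β = _
      rw [hβ]
      show (if β.degree = n + 1 then _ else _) = _
      rw [if_pos hβ]
    · rw [hb]
      show (approx d β.degree).2 β = _
      rw [hβ]
      show (if β.degree = n + 1 then _ else _) = _
      rw [if_pos hβ]
  have hcoeff : ∀ (n : ℕ) (β : Fin d →₀ ℕ), β.degree = n + 1 → coeff β (Phi a b) =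
      coeff β (lamTrunc a b n) - ((a β : Tor) * chi + (b β : Tor)) := by
    intro n β hβ
    show coeff β (lamTrunc a b β.degree) = _
    rw [hβ, coeff_lamTrunc_succ a b hβ]
  have hzero : coeff (0 : Fin d →₀ ℕ) (Phi a b) = 1 := by
    show coeff (0 : Fin d →₀ ℕ) (lamTrunc a b (0 : Fin d →₀ ℕ).degree) = 1
    have h1 : (0 : Fin d →₀ ℕ).degree = 0 := by simp
    rw [h1, lamTrunc_zero]
    simp
  refine ⟨?_, ?_, ?_, ?_⟩
  · rw [ha]
    show (approx d (0 : Fin d →₀ ℕ).degree).1 0 = 0
    have h1 : (0 : Fin d →₀ ℕ).degree = 0 := by simp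
    rw [h1]
    rfl
  · rw [hb]
    show (approx d (0 : Fin d →₀ ℕ).degree).2 0 = 0
    have h1 : (0 : Fin d →₀ ℕ).degree = 0 := by simp
    rw [h1]
    rfl
  · intro β
    by_cases h0 : β = 0
    · subst h0
      rw [hzero, mult_one_zero, if_pos rfl]
    · obtain ⟨n, hn⟩ : ∃ n, β.degree = n + 1 := by
        refine ⟨β.degree - 1, ?_⟩
        have : β.degree ≠ 0 := fun h => h0 ((Finsupp.degree_eq_zero_iff β).1 h)
        omega
      rw [hcoeff n β hn, mult_sub, mult_lin, mult_chi_zero, mult_one_zero, (hstep n β hn).2,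
        if_neg h0]
      ring
  · intro β
    by_cases h0 : β = 0
    · subst h0
      rw [hzero, mult_one_one]
      simp
    · obtain ⟨n, hn⟩ : ∃ n, β.degree = n + 1 := by
        refine ⟨β.degree - 1, ?_⟩
        have : β.degree ≠ 0 := fun h => h0 ((Finsupp.degree_eq_zero_iff β).1 h)
        omega
      rw [hcoeff n β hn, mult_sub, mult_lin, mult_chi_one, mult_one_one, (hstep n β hn).1, hn]
      by_cases hn0 : n = 0
      · subst hn0
        simp
      · rw [if_neg hn0, if_neg (by omega)]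
        ring

end Q5.AltChar
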